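import Pool.Agent.H828.HC.LowerNum
import Pool.Agent.H295R3.Hoheisel

/-!
# Hamiltonian graphs in which all cycles have different lengths: `h(n) = n + √n + o(√n)`

`hamMax n` is the largest number of edges of a Hamiltonian graph on `n` vertices in which any two
different cycles (cycles with different edge sets) have different lengths.

Upper bound.  Let `k` be the number of chords of the Hamiltonian cycle `H`.  For a chord `c` any two
chords `d`, `e` on the same side of `c` (or any two chords crossing `c`) are nested, or there is a
cycle whose chords are exactly `c`, `d`, `e`.  There are at most `n` cycles, so for some `c` there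
are at most `3 n / k` exceptional pairs.  All other pairs are nested, and the two chords and two arcs
of `H` form a cycle of length `|σ(d) - σ(e)| + 2`, where `σ` is the length of an arc; so nearly all
differences of the numbers `σ(d)`, `0 < σ(d) < n`, are different and the argument of Erdős and Turán
for Sidon sets applies.

Lower bound.  The fan over a Golomb ruler of length exactly `n - 2`; the rulers come from the
difference sets of Singer for the primes in short intervals.
-/

set_option autoImplicit false

namespace Pool.Agent.Results.MP_838d6f_co.SecondOrderTerm

open Pool.Agent.H828.HC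

/-- Let `hamMax n` be the largest number of edges of a Hamiltonian graph on `n` vertices in which
different cycles have different lengths.  Then
`hamMax n ≤ n + √n + 13 n ^ (1/4)` for all `n ≥ 3`, and for some `δ > 0` and all large `n`,
`n + √n - 10 n ^ (1/2 - δ) ≤ hamMax n`. -/
theorem result :
    (∀ n : ℕ, 3 ≤ n → (hamMax n : ℝ) ≤ n + √n + 13 * (n : ℝ) ^ (1 / 4 : ℝ)) ∧
    ∃ δ : ℝ, 0 < δ ∧ ∃ N : ℕ, ∀ n : ℕ, N ≤ n →
      (n : ℝ) + √n - 10 * (n : ℝ) ^ (1 / 2 - δ : ℝ) ≤ hamMax n :=
  ⟨hamMax_upper, lower Pool.Agent.H295R3.D.hoheisel⟩

end Pool.Agent.Results.MP_838d6f_co.SecondOrderTerm
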